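import Pool.Agent.LBQ.Ga

/-!
# LBQ/Gb: the ideal `(N, th)` and its fifth power
-/

set_option autoImplicit false

namespace Pool.Agent.LBQ

open Pool.Agent.PP5 Ideal

theorem bez3 {a b c : ℤ} (h : ∀ p : ℕ, p.Prime → ¬ ((p : ℤ) ∣ a ∧ (p : ℤ) ∣ b ∧ (p : ℤ) ∣ c)) :
    ∃ x y z : ℤ, x * a + y * b + z * c = 1 := by
  have hg : Int.gcd (Int.gcd a b) c = 1 := by
    by_contra hc
    obtain ⟨p, hp, hpg⟩ := Nat.exists_prime_and_dvd hc
    have h1 : (p : ℤ) ∣ (Int.gcd a b : ℤ) :=
      (Int.natCast_dvd_natCast.mpr hpg).trans (Int.gcd_dvd_left _ _)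
    have h2 : (p : ℤ) ∣ c := (Int.natCast_dvd_natCast.mpr hpg).trans (Int.gcd_dvd_right _ _)
    exact h p hp ⟨h1.trans (Int.gcd_dvd_left _ _), h1.trans (Int.gcd_dvd_right _ _), h2⟩
  obtain ⟨u, v, huv⟩ := Int.isCoprime_iff_gcd_eq_one.mpr hg
  have h3 := Int.gcd_eq_gcd_ab a b
  refine ⟨u * Int.gcdA a b, u * Int.gcdB a b, v, ?_⟩
  rw [← huv, h3]
  ring

/-- `f_V` is primitive -/
def Pv (P : Sp) : Prop := ∃ x y z : ℤ, x * Nf P + y * Bf P + z * Cf P = 1

/-- `f_W` is primitive -/
def Pw (P : Sp) : Prop := ∃ x y z : ℤ, x * Kf P + y * Bg P + z * Mf P = 1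

theorem pv_of {P : Sp} (h : ∀ p : ℕ, p.Prime → ¬ ((p : ℤ) ∣ Nf P ∧ (p : ℤ) ∣ Bf P ∧
    (p : ℤ) ∣ P 10 ^ 2 - P 9 * P 11)) : Pv P := bez3 h

theorem pw_of {P : Sp} (h : Qd P) (hv : Pv P) : Pw P := by
  apply bez3
  rintro p hp ⟨h1, h2, h3⟩
  have hpz := Nat.prime_iff_prime_int.mp hp
  obtain ⟨x, y, z, hxyz⟩ := hv
  have hN : (p : ℤ) ∣ Nf P := by
    apply hpz.dvd_of_dvd_pow (n := 2)
    rw [nn_eq]
    exact dvd_add (dvd_sub (h1.mul_right _) ((h2.mul_right _).mul_right _)) (h3.mul_right _)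
  have hC : (p : ℤ) ∣ Cf P := by
    apply hpz.dvd_of_dvd_pow (n := 2)
    rw [cc_eq h]
    exact dvd_add (dvd_sub (h1.mul_right _) ((h2.mul_right _).mul_right _)) (h3.mul_right _)
  have hB : (p : ℤ) ∣ Bf P := by
    apply hpz.dvd_of_dvd_pow (n := 2)
    have e : Bf P ^ 2 = Bg P ^ 2 - 4 * Kf P * Mf P + 4 * Nf P * Cf P := by
      rw [← df_eq' h, df_eq h]; ring
    rw [e]
    refine dvd_add (dvd_sub (dvd_pow h2 two_ne_zero) ?_) ?_
    · exact (h1.mul_left 4).mul_right _
    · exact (hN.mul_left 4).mul_right _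
  apply hpz.not_isUnit
  apply isUnit_of_dvd_one
  rw [← hxyz]
  exact dvd_add (dvd_add (hN.mul_left x) (hB.mul_left y)) (hC.mul_left z)

theorem pv_of_pw {P : Sp} (h : Qd P) (hw : Pw P) : Pv P := by
  apply bez3
  rintro p hp ⟨h1, h2, h3⟩
  have hpz := Nat.prime_iff_prime_int.mp hp
  obtain ⟨x, y, z, hxyz⟩ := hw
  have hK : (p : ℤ) ∣ Kf P := by
    apply hpz.dvd_of_dvd_pow (n := 2)
    rw [kk_eq h]
    exact dvd_add (dvd_sub (h1.mul_right _) ((h2.mul_right _).mul_right _)) (h3.mul_right _)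
  have hM : (p : ℤ) ∣ Mf P := by
    apply hpz.dvd_of_dvd_pow (n := 2)
    rw [km_eq h]
    exact dvd_add (dvd_sub (h1.mul_right _) ((h2.mul_right _).mul_right _)) (h3.mul_right _)
  have hB : (p : ℤ) ∣ Bg P := by
    apply hpz.dvd_of_dvd_pow (n := 2)
    have e : Bg P ^ 2 = Bf P ^ 2 - 4 * Nf P * Cf P + 4 * Kf P * Mf P := by
      rw [← df_eq h, df_eq' h]; ring
    rw [e]
    refine dvd_add (dvd_sub (dvd_pow h2 two_ne_zero) ?_) ?_
    · exact (h1.mul_left 4).mul_right _
    · exact (hK.mul_left 4).mul_right _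
  apply hpz.not_isUnit
  apply isUnit_of_dvd_one
  rw [← hxyz]
  exact dvd_add (dvd_add (hK.mul_left x) (hB.mul_left y)) (hM.mul_left z)

private theorem mem_eq {R : Type*} [CommRing R] {I : Ideal R} {a b : R} (e : a = b)
    (h : b ∈ I) : a ∈ I := by
  rw [e]; exact h

section ring

variable {R : Type*} [CommRing R] {P : Sp} {th : R}

/-- `I conj I = (N)` -/
theorem iic (h : Hy P th) (hv : Pv P) :
    span {(Nf P : R), th} * span {(Nf P : R), tc P th} = span {(Nf P : R)} := by
  obtain ⟨x, y, z, hxyz⟩ := hv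
  have e0 : (x : R) * Nf P + y * Bf P + z * Cf P = 1 := by
    have := congrArg (fun t : ℤ => (t : R)) hxyz
    push_cast at this; exact this
  have et : tc P th = (Bf P : R) - th := rfl
  have ett := tt h
  rw [span_pair_mul_span_pair]
  apply le_antisymm
  · rw [span_le]
    intro a ha
    simp only [Set.mem_insert_iff, Set.mem_singleton_iff] at ha
    rw [SetLike.mem_coe, mem_span_singleton]
    rcases ha with rfl | rfl | rfl | rfl
    · exact dvd_mul_right _ _
    · exact dvd_mul_right _ _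
    · exact dvd_mul_left _ _
    · rw [ett]; exact dvd_mul_right _ _
  · rw [span_singleton_le_iff_mem]
    have e : (Nf P : R) = x * ((Nf P : R) * Nf P) + y * ((Nf P : R) * tc P th) +
        y * (th * (Nf P : R)) + z * (th * tc P th) := by
      rw [ett]
      linear_combination (-(Nf P : R)) * e0 - (y : R) * (Nf P : R) * et
    refine mem_eq e (add_mem (add_mem (add_mem ?_ ?_) ?_) ?_)
    · exact mul_mem_left _ _ (subset_span (by simp))
    · exact mul_mem_left _ _ (subset_span (by simp))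
    · exact mul_mem_left _ _ (subset_span (by simp))
    · exact mul_mem_left _ _ (subset_span (by simp))

/-- `I ^ 2 = (b1, b2)` -/
theorem isq (h : Hy P th) (hv : Pv P) :
    span {(Nf P : R), th} * span {(Nf P : R), th} = span {b1 P th, b2 P th} := by
  obtain ⟨x, y, z, hxyz⟩ := hv
  have e0 : (x : R) * Nf P + y * Bf P + z * Cf P = 1 := by
    have := congrArg (fun t : ℤ => (t : R)) hxyz
    push_cast at this; exact this
  have eN : (Nf P : R) = (P 0 : R) * P 4 - (P 1 : R) * P 3 := by unfold Nf; push_cast; ring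
  have eB : (Bf P : R) = (P 0 : R) * P 5 - (P 2 : R) * P 3 := by rw [bf_eq h.qd]; push_cast; ring
  have eC : (Cf P : R) = (P 1 : R) * P 5 - (P 2 : R) * P 4 := by rw [cf_eq h.qd]; push_cast; ring
  have f1 := a11 (P := P) (th := th)
  have f2 := a12 (P := P) (th := th)
  have f3 := a22 h
  rw [span_pair_mul_span_pair]
  apply le_antisymm
  · rw [span_le]
    intro a ha
    simp only [Set.mem_insert_iff, Set.mem_singleton_iff] at ha
    rw [SetLike.mem_coe, mem_span_pair]
    rcases ha with rfl | rfl | rfl | rfl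
    · exact ⟨(P 3 : R), -(P 0 : R), by linear_combination f1⟩
    · exact ⟨(P 4 : R), -(P 1 : R), by linear_combination f2⟩
    · exact ⟨(P 4 : R), -(P 1 : R), by linear_combination f2⟩
    · exact ⟨(P 5 : R), -(P 2 : R), by linear_combination f3⟩
  · rw [span_le]
    intro a ha
    simp only [Set.mem_insert_iff, Set.mem_singleton_iff] at ha
    rw [SetLike.mem_coe]
    rcases ha with rfl | rfl
    · have e : b1 P th = (-(x : R) * P 1 - (y : R) * P 2) * ((Nf P : R) * Nf P) +
          ((x : R) * P 0 - (z : R) * P 2) * ((Nf P : R) * th) +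
          ((y : R) * P 0 + (z : R) * P 1) * (th * th) := by
        linear_combination (-(b1 P th)) * e0 + (x : R) * b1 P th * eN + (y : R) * b1 P th * eB +
          (z : R) * b1 P th * eC - ((x : R) * P 1 + (y : R) * P 2) * f1 +
          ((x : R) * P 0 - (z : R) * P 2) * f2 + ((y : R) * P 0 + (z : R) * P 1) * f3
      exact mem_eq e (add_mem (add_mem (mul_mem_left _ _ (subset_span (by simp)))
        (mul_mem_left _ _ (subset_span (by simp)))) (mul_mem_left _ _ (subset_span (by simp))))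
    · have e : b2 P th = (-(x : R) * P 4 - (y : R) * P 5) * ((Nf P : R) * Nf P) +
          ((x : R) * P 3 - (z : R) * P 5) * ((Nf P : R) * th) +
          ((y : R) * P 3 + (z : R) * P 4) * (th * th) := by
        linear_combination (-(b2 P th)) * e0 + (x : R) * b2 P th * eN + (y : R) * b2 P th * eB +
          (z : R) * b2 P th * eC - ((x : R) * P 4 + (y : R) * P 5) * f1 +
          ((x : R) * P 3 - (z : R) * P 5) * f2 + ((y : R) * P 3 + (z : R) * P 4) * f3
      exact mem_eq e (add_mem (add_mem (mul_mem_left _ _ (subset_span (by simp)))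
        (mul_mem_left _ _ (subset_span (by simp)))) (mul_mem_left _ _ (subset_span (by simp))))

/-- the six numbers `c_ij'` generate the conjugate ideal -/
theorem icj (h : Hy P th) (hw : Pw P) :
    span {(P 9 : R) * (Nf P : R) - (P 6 : R) * tc P th,
      (P 10 : R) * (Nf P : R) - (P 7 : R) * tc P th,
      (P 11 : R) * (Nf P : R) - (P 8 : R) * tc P th} = span {(Nf P : R), tc P th} := by
  obtain ⟨x, y, z, hxyz⟩ := hw
  have e0 : (x : R) * Kf P + y * Bg P + z * Mf P = 1 := by
    have := congrArg (fun t : ℤ => (t : R)) hxyz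
    push_cast at this; exact this
  have eK : (Kf P : R) = (P 7 : R) * P 9 - (P 6 : R) * P 10 := by rw [kf_eq h.qd]; push_cast; ring
  have eG : (Bg P : R) = (P 8 : R) * P 9 - (P 6 : R) * P 11 := by rw [bg_eq h.qd]; push_cast; ring
  have eM : (Mf P : R) = (P 8 : R) * P 10 - (P 7 : R) * P 11 := by rw [mf_eq h.qd]; push_cast; ring
  rw [eK, eG, eM] at e0
  apply le_antisymm
  · rw [span_le]
    intro a ha
    simp only [Set.mem_insert_iff, Set.mem_singleton_iff] at ha
    rw [SetLike.mem_coe, mem_span_pair]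
    rcases ha with rfl | rfl | rfl
    · exact ⟨(P 9 : R), -(P 6 : R), by ring⟩
    · exact ⟨(P 10 : R), -(P 7 : R), by ring⟩
    · exact ⟨(P 11 : R), -(P 8 : R), by ring⟩
  · rw [span_le]
    intro a ha
    simp only [Set.mem_insert_iff, Set.mem_singleton_iff] at ha
    rw [SetLike.mem_coe]
    rcases ha with rfl | rfl
    · have e : (Nf P : R) = ((x : R) * P 7 + (y : R) * P 8) *
            ((P 9 : R) * (Nf P : R) - (P 6 : R) * tc P th) +
          (-(x : R) * P 6 + (z : R) * P 8) * ((P 10 : R) * (Nf P : R) - (P 7 : R) * tc P th) +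
          (-(y : R) * P 6 - (z : R) * P 7) * ((P 11 : R) * (Nf P : R) - (P 8 : R) * tc P th) := by
        linear_combination (-(Nf P : R)) * e0
      exact mem_eq e (add_mem (add_mem (mul_mem_left _ _ (subset_span (by simp)))
        (mul_mem_left _ _ (subset_span (by simp)))) (mul_mem_left _ _ (subset_span (by simp))))
    · have e : tc P th = ((x : R) * P 10 + (y : R) * P 11) *
            ((P 9 : R) * (Nf P : R) - (P 6 : R) * tc P th) +
          (-(x : R) * P 9 + (z : R) * P 11) * ((P 10 : R) * (Nf P : R) - (P 7 : R) * tc P th) +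
          (-(y : R) * P 9 - (z : R) * P 10) * ((P 11 : R) * (Nf P : R) - (P 8 : R) * tc P th) := by
        linear_combination (-(tc P th)) * e0
      exact mem_eq e (add_mem (add_mem (mul_mem_left _ _ (subset_span (by simp)))
        (mul_mem_left _ _ (subset_span (by simp)))) (mul_mem_left _ _ (subset_span (by simp))))

variable [IsDomain R]

/-- `(N) I ^ 4 = (Gm) conj I` -/
theorem i4 (h : Hy P th) (hw : Pw P) (hK : (Kf P : R) ≠ 0) :
    span {(Nf P : R)} * (span {b1 P th, b2 P th} * span {b1 P th, b2 P th}) =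
      span {Gm P th} * span {(Nf P : R), tc P th} := by
  rw [← icj h hw, span_pair_mul_span_pair, span_mul_span', span_mul_span']
  have g1 := g11 h hK
  have g2 := g12 h hK
  have g3 := g22 h hK
  congr 1
  ext a
  simp only [Set.singleton_mul, Set.image_insert_eq, Set.image_singleton, Set.mem_insert_iff,
    Set.mem_singleton_iff]
  rw [mul_comm (b2 P th) (b1 P th), g1, g2, g3]
  tauto

/-- `I ^ 5 = (Gm)` -/
theorem i5 (h : Hy P th) (hv : Pv P) (hN : (Nf P : R) ≠ 0) (hK : (Kf P : R) ≠ 0) :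
    span {(Nf P : R), th} ^ 5 = span {Gm P th} := by
  have h1 := isq h hv
  have h2 := i4 h (pw_of h.qd hv) hK
  have h3 := iic h hv
  rw [← span_singleton_mul_right_inj hN]
  calc span {(Nf P : R)} * span {(Nf P : R), th} ^ 5
      = span {(Nf P : R)} * ((span {(Nf P : R), th} * span {(Nf P : R), th}) *
          (span {(Nf P : R), th} * span {(Nf P : R), th})) * span {(Nf P : R), th} := by ring
    _ = span {Gm P th} * (span {(Nf P : R), th} * span {(Nf P : R), tc P th}) := by
        rw [h1, h2]; ring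
    _ = span {(Nf P : R)} * span {Gm P th} := by rw [h3]; ring

end ring

end Pool.Agent.LBQ
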