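import Pool.Agent.PP5.Defs

/-!
# LBQ/Ga: the algebra of a point over a quadratic ring

`R` a commutative domain, `th ∈ R` with `th ^ 2 = B th - N C`; `b1 = c th - N p2`, `b2 = q1 th - N q2`,
`Gm = b1 (q1 r2 - c r3) + b2 (c r2 - q1 v)`; then `(N, th) ^ 5 = (Gm)`.
-/

set_option autoImplicit false

namespace Pool.Agent.LBQ

open Pool.Agent.PP5

/-- `C = s2 s2 - s1 s3`, the last coefficient of `f_V` -/
def Cf (P : Sp) : ℤ := P 10 ^ 2 - P 9 * P 11

/-- `M = q2 q2 - q1 q3`, the last coefficient of `f_W` -/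
def Mf (P : Sp) : ℤ := P 4 ^ 2 - P 3 * P 5

/-- the middle coefficient of `f_V` as a minor -/
theorem bf_eq {P : Sp} (h : Qd P) : Bf P = P 0 * P 5 - P 2 * P 3 := by
  unfold Bf
  linear_combination -h.h5 - h.h6

theorem cf_eq {P : Sp} (h : Qd P) : Cf P = P 1 * P 5 - P 2 * P 4 := by
  unfold Cf
  linear_combination -h.h3

theorem nf_eq {P : Sp} (h : Qd P) : Nf P = P 7 ^ 2 - P 6 * P 8 := by
  unfold Nf
  linear_combination h.h1

/-- `f_W` as minors -/
theorem kf_eq {P : Sp} (h : Qd P) : Kf P = P 7 * P 9 - P 6 * P 10 := by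
  unfold Kf
  linear_combination h.h2

theorem bg_eq {P : Sp} (h : Qd P) : Bg P = P 8 * P 9 - P 6 * P 11 := by
  unfold Bg
  linear_combination h.h5 - h.h6

theorem mf_eq {P : Sp} (h : Qd P) : Mf P = P 8 * P 10 - P 7 * P 11 := by
  unfold Mf
  linear_combination h.h4

theorem df_eq {P : Sp} (h : Qd P) : Df P = Bf P ^ 2 - 4 * Nf P * Cf P := by
  rw [nf_eq h]
  unfold Df Bf Cf
  ring

/-- `f_W` at the point `(s1, -v)` of `f_V`, and so on -/
theorem kk_eq {P : Sp} (h : Qd P) :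
    Kf P ^ 2 = Nf P * P 9 ^ 2 - Bf P * P 9 * P 6 + Cf P * P 6 ^ 2 := by
  rw [kf_eq h, nf_eq h]
  unfold Bf Cf
  ring

theorem km_eq {P : Sp} (h : Qd P) :
    Mf P ^ 2 = Nf P * P 11 ^ 2 - Bf P * P 11 * P 8 + Cf P * P 8 ^ 2 := by
  rw [mf_eq h, nf_eq h]
  unfold Bf Cf
  ring

theorem nn_eq (P : Sp) :
    Nf P ^ 2 = Kf P * P 3 ^ 2 - Bg P * P 3 * P 0 + Mf P * P 0 ^ 2 := by
  unfold Nf Kf Bg Mf
  ring

theorem cc_eq {P : Sp} (h : Qd P) :
    Cf P ^ 2 = Kf P * P 5 ^ 2 - Bg P * P 5 * P 2 + Mf P * P 2 ^ 2 := by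
  rw [cf_eq h]
  unfold Kf Bg Mf
  ring

theorem df_eq' {P : Sp} (h : Qd P) : Df P = Bg P ^ 2 - 4 * Kf P * Mf P := by
  rw [df_eq h, bf_eq h, cf_eq h]
  unfold Nf Kf Bg Mf
  ring

/-- the two bases agree modulo 2 -/
theorem bg_bf {P : Sp} (h : Qd P) : Bg P = Bf P + 2 * (P 1 * P 4 - P 0 * P 5) := by
  rw [bf_eq h]
  unfold Bg
  ring

section ring

variable {R : Type*} [CommRing R] (P : Sp) (th : R)

def b1 : R := (P 0 : R) * th - (Nf P : R) * (P 1 : R)

def b2 : R := (P 3 : R) * th - (Nf P : R) * (P 4 : R)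

/-- the generator of `(N, th) ^ 5` -/
def Gm : R := b1 P th * ((P 3 : R) * (P 7 : R) - (P 0 : R) * (P 8 : R)) +
  b2 P th * ((P 0 : R) * (P 7 : R) - (P 3 : R) * (P 6 : R))

/-- the conjugate of `th` -/
def tc : R := (Bf P : R) - th

/-- the hypotheses -/
structure Hy : Prop where
  qd : Qd P
  th : th ^ 2 = (Bf P : R) * th - (Nf P : R) * (Cf P : R)

variable {P th}

theorem a11 : (P 3 : R) * b1 P th - (P 0 : R) * b2 P th = (Nf P : R) ^ 2 := by
  have e : (Nf P : R) = (P 0 : R) * P 4 - (P 1 : R) * P 3 := by unfold Nf; push_cast; ring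
  unfold b1 b2
  linear_combination (-(Nf P : R)) * e

theorem a12 : (P 4 : R) * b1 P th - (P 1 : R) * b2 P th = (Nf P : R) * th := by
  have e : (Nf P : R) = (P 0 : R) * P 4 - (P 1 : R) * P 3 := by unfold Nf; push_cast; ring
  unfold b1 b2
  linear_combination (-th) * e

theorem a22 (h : Hy P th) : (P 5 : R) * b1 P th - (P 2 : R) * b2 P th = th ^ 2 := by
  have e : (Bf P : R) = (P 0 : R) * P 5 - (P 2 : R) * P 3 := by rw [bf_eq h.qd]; push_cast; ring
  have e' : (Cf P : R) = (P 1 : R) * P 5 - (P 2 : R) * P 4 := by rw [cf_eq h.qd]; push_cast; ring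
  rw [h.th]
  unfold b1 b2
  linear_combination (-th) * e + (Nf P : R) * e'

theorem tt (h : Hy P th) : th * tc P th = (Nf P : R) * (Cf P : R) := by
  unfold tc
  linear_combination -h.th

/-- `K b2 = b1 beta`, `beta = th + p2 q2 - c q3` -/
theorem kb (h : Hy P th) : (Kf P : R) * b2 P th =
    b1 P th * (th + (P 1 : R) * P 4 - (P 0 : R) * P 5) := by
  have eN : (Nf P : R) = (P 0 : R) * P 4 - (P 1 : R) * P 3 := by unfold Nf; push_cast; ring
  have eK : (Kf P : R) = (P 1 : R) ^ 2 - (P 0 : R) * P 2 := by unfold Kf; push_cast; ring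
  have eB : (Bf P : R) = (P 0 : R) * P 5 - (P 2 : R) * P 3 := by rw [bf_eq h.qd]; push_cast; ring
  have eC : (Cf P : R) = (P 1 : R) * P 5 - (P 2 : R) * P 4 := by rw [cf_eq h.qd]; push_cast; ring
  have ht := h.th
  unfold b1 b2
  rw [eK]
  rw [eB, eC] at ht
  rw [eN] at ht ⊢
  linear_combination (-(P 0 : R)) * ht

/-- `c_11 = K r2 - beta v` -/
theorem kc (h : Hy P th) : (P 9 : R) * (Nf P : R) - (P 6 : R) * th =
    (Kf P : R) * P 7 - (th + (P 1 : R) * P 4 - (P 0 : R) * P 5) * P 6 := by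
  have eN : (Nf P : R) = (P 7 : R) ^ 2 - (P 6 : R) * P 8 := by rw [nf_eq h.qd]; push_cast; ring
  have eK : (Kf P : R) = (P 7 : R) * P 9 - (P 6 : R) * P 10 := by rw [kf_eq h.qd]; push_cast; ring
  have e5 : (P 6 : R) * P 11 - P 2 * P 3 - P 7 * P 10 + P 1 * P 4 = 0 := by
    have := congrArg (fun z : ℤ => (z : R)) h.qd.h5
    push_cast at this; exact this
  have e6 : (P 0 : R) * P 5 + P 8 * P 9 - P 7 * P 10 - P 1 * P 4 = 0 := by
    have := congrArg (fun z : ℤ => (z : R)) h.qd.h6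
    push_cast at this; exact this
  rw [eN, eK]
  linear_combination (-(P 6 : R)) * e6

/-- the shift `m = p2 q2 - c q3` in the second basis -/
theorem mm (h : Qd P) : (P 1 : R) * P 4 - (P 0 : R) * P 5 = (P 8 : R) * P 9 - (P 7 : R) * P 10 := by
  have e6 : (P 0 : R) * P 5 + P 8 * P 9 - P 7 * P 10 - P 1 * P 4 = 0 := by
    have := congrArg (fun z : ℤ => (z : R)) h.h6
    push_cast at this; exact this
  linear_combination -e6

theorem bm (h : Qd P) : (Bf P : R) + ((P 1 : R) * P 4 - (P 0 : R) * P 5) =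
    (P 7 : R) * P 10 - (P 6 : R) * P 11 := by
  have e5 : (P 6 : R) * P 11 - P 2 * P 3 - P 7 * P 10 + P 1 * P 4 = 0 := by
    have := congrArg (fun z : ℤ => (z : R)) h.h5
    push_cast at this; exact this
  have eB : (Bf P : R) = (P 0 : R) * P 5 - (P 2 : R) * P 3 := by rw [bf_eq h]; push_cast; ring
  rw [eB]
  linear_combination e5

/-- `K X = b1 c_11`, `X = b1 r2 - b2 v` -/
theorem kx (h : Hy P th) : (Kf P : R) * (b1 P th * P 7 - b2 P th * P 6) =
    b1 P th * ((P 9 : R) * (Nf P : R) - (P 6 : R) * th) := by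
  linear_combination (-(P 6 : R)) * kb h - b1 P th * kc h

/-- `b1 = q1 K - c beta'` -/
theorem bb : b1 P th = (P 3 : R) * Kf P -
    (P 0 : R) * ((Bg P : R) - (th + (P 1 : R) * P 4 - (P 0 : R) * P 5)) := by
  have eN : (Nf P : R) = (P 0 : R) * P 4 - (P 1 : R) * P 3 := by unfold Nf; push_cast; ring
  have eK : (Kf P : R) = (P 1 : R) ^ 2 - (P 0 : R) * P 2 := by unfold Kf; push_cast; ring
  have eG : (Bg P : R) = 2 * (P 1 : R) * P 4 - (P 0 : R) * P 5 - (P 2 : R) * P 3 := by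
    unfold Bg; push_cast; ring
  unfold b1
  rw [eN, eK, eG]
  ring

/-- `beta' b2 = M b1` -/
theorem mb (h : Hy P th) : ((Bg P : R) - (th + (P 1 : R) * P 4 - (P 0 : R) * P 5)) * b2 P th =
    (Mf P : R) * b1 P th := by
  have eN : (Nf P : R) = (P 0 : R) * P 4 - (P 1 : R) * P 3 := by unfold Nf; push_cast; ring
  have eM : (Mf P : R) = (P 4 : R) ^ 2 - (P 3 : R) * P 5 := by unfold Mf; push_cast; ring
  have eG : (Bg P : R) = 2 * (P 1 : R) * P 4 - (P 0 : R) * P 5 - (P 2 : R) * P 3 := by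
    unfold Bg; push_cast; ring
  have eB : (Bf P : R) = (P 0 : R) * P 5 - (P 2 : R) * P 3 := by rw [bf_eq h.qd]; push_cast; ring
  have eC : (Cf P : R) = (P 1 : R) * P 5 - (P 2 : R) * P 4 := by rw [cf_eq h.qd]; push_cast; ring
  have ht := h.th
  unfold b1 b2
  rw [eM, eG]
  rw [eB, eC] at ht
  rw [eN] at ht ⊢
  linear_combination (-(P 3 : R)) * ht

/-- `K r3 = Bg r2 - M v` -/
theorem kr (h : Qd P) : (Kf P : R) * P 8 = (Bg P : R) * P 7 - (Mf P : R) * P 6 := by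
  have eK : (Kf P : R) = (P 7 : R) * P 9 - (P 6 : R) * P 10 := by rw [kf_eq h]; push_cast; ring
  have eG : (Bg P : R) = (P 8 : R) * P 9 - (P 6 : R) * P 11 := by rw [bg_eq h]; push_cast; ring
  have eM : (Mf P : R) = (P 8 : R) * P 10 - (P 7 : R) * P 11 := by rw [mf_eq h]; push_cast; ring
  rw [eK, eG, eM]
  ring

/-- `K Gm = b1 X` -/
theorem kg (h : Hy P th) : (Kf P : R) * Gm P th = b1 P th * (b1 P th * P 7 - b2 P th * P 6) := by
  have e1 := bb (P := P) (th := th)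
  have e2 := mb h
  have e3 := kr (R := R) h.qd
  have e4 := kb h
  unfold Gm
  linear_combination (-(b1 P th * (P 7 : R) - b2 P th * P 6)) * e1 - (P 0 : R) * b1 P th * e3 +
    (P 0 : R) * (P 7 : R) * e4 - (P 0 : R) * (P 6 : R) * e2

/-- `c_11' c_11 = N K ^ 2` -/
theorem c11 (h : Hy P th) : ((P 9 : R) * (Nf P : R) - (P 6 : R) * th) *
    ((P 9 : R) * (Nf P : R) - (P 6 : R) * tc P th) = (Nf P : R) * (Kf P : R) ^ 2 := by
  have e1 := tt h
  have e2 : (Kf P : R) ^ 2 = Nf P * P 9 ^ 2 - Bf P * P 9 * P 6 + Cf P * P 6 ^ 2 := by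
    have := congrArg (fun z : ℤ => (z : R)) (kk_eq h.qd)
    push_cast at this; exact this
  have e3 : tc P th = (Bf P : R) - th := rfl
  rw [e2]
  linear_combination (P 6 : R) ^ 2 * e1 - (P 6 : R) * (P 9 : R) * (Nf P : R) * e3

/-- `K c_12' = beta c_11'` -/
theorem c12 (h : Hy P th) : (Kf P : R) * ((P 10 : R) * (Nf P : R) - (P 7 : R) * tc P th) =
    (th + (P 1 : R) * P 4 - (P 0 : R) * P 5) *
      ((P 9 : R) * (Nf P : R) - (P 6 : R) * tc P th) := by
  have e1 := tt h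
  have e2 := mm (R := R) h.qd
  have e3 := bm (R := R) h.qd
  have eK : (Kf P : R) = (P 7 : R) * P 9 - (P 6 : R) * P 10 := by rw [kf_eq h.qd]; push_cast; ring
  have eN : (Nf P : R) = (P 7 : R) ^ 2 - (P 6 : R) * P 8 := by rw [nf_eq h.qd]; push_cast; ring
  have eC : (Cf P : R) = (P 10 : R) ^ 2 - (P 9 : R) * P 11 := by unfold Cf; push_cast; ring
  have e4 : tc P th = (Bf P : R) - th := rfl
  have k2 : (Kf P : R) * P 10 = (P 9 : R) * ((P 7 : R) * P 10 - (P 6 : R) * P 11) -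
      (P 6 : R) * Cf P := by rw [eK, eC]; ring
  have k1 : (Kf P : R) * P 7 = (P 9 : R) * Nf P +
      ((P 8 : R) * P 9 - (P 7 : R) * P 10) * P 6 := by rw [eK, eN]; ring
  linear_combination (Nf P : R) * k2 - (tc P th) * k1 + (P 6 : R) * e1 -
    (P 9 : R) * (Nf P : R) * e3 - (P 9 : R) * (Nf P : R) * e4 +
    (P 6 : R) * tc P th * e2

/-- `K c_22' = beta c_12'` -/
theorem c22 (h : Hy P th) : (Kf P : R) * ((P 11 : R) * (Nf P : R) - (P 8 : R) * tc P th) =
    (th + (P 1 : R) * P 4 - (P 0 : R) * P 5) *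
      ((P 10 : R) * (Nf P : R) - (P 7 : R) * tc P th) := by
  have e1 := tt h
  have e2 := mm (R := R) h.qd
  have e3 := bm (R := R) h.qd
  have eK : (Kf P : R) = (P 7 : R) * P 9 - (P 6 : R) * P 10 := by rw [kf_eq h.qd]; push_cast; ring
  have eN : (Nf P : R) = (P 7 : R) ^ 2 - (P 6 : R) * P 8 := by rw [nf_eq h.qd]; push_cast; ring
  have eC : (Cf P : R) = (P 10 : R) ^ 2 - (P 9 : R) * P 11 := by unfold Cf; push_cast; ring
  have e4 : tc P th = (Bf P : R) - th := rfl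
  have k2 : (Kf P : R) * P 11 = (P 10 : R) * ((P 7 : R) * P 10 - (P 6 : R) * P 11) -
      (P 7 : R) * Cf P := by rw [eK, eC]; ring
  have k1 : (Kf P : R) * P 8 = (P 10 : R) * Nf P +
      ((P 8 : R) * P 9 - (P 7 : R) * P 10) * P 7 := by rw [eK, eN]; ring
  linear_combination (Nf P : R) * k2 - (tc P th) * k1 + (P 7 : R) * e1 -
    (P 10 : R) * (Nf P : R) * e3 - (P 10 : R) * (Nf P : R) * e4 +
    (P 7 : R) * tc P th * e2

variable [IsDomain R]

theorem g11 (h : Hy P th) (hK : (Kf P : R) ≠ 0) : (Nf P : R) * (b1 P th * b1 P th) =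
    Gm P th * ((P 9 : R) * (Nf P : R) - (P 6 : R) * tc P th) := by
  apply mul_left_cancel₀ (pow_ne_zero 2 hK)
  have e1 := kg h
  have e2 := kx h
  have e3 := c11 h
  linear_combination (-(Kf P : R)) * ((P 9 : R) * (Nf P : R) - (P 6 : R) * tc P th) * e1 -
    b1 P th * ((P 9 : R) * (Nf P : R) - (P 6 : R) * tc P th) * e2 - b1 P th ^ 2 * e3

theorem g12 (h : Hy P th) (hK : (Kf P : R) ≠ 0) : (Nf P : R) * (b1 P th * b2 P th) =
    Gm P th * ((P 10 : R) * (Nf P : R) - (P 7 : R) * tc P th) := by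
  apply mul_left_cancel₀ hK
  have e1 := g11 h hK
  have e2 := c12 h
  have e3 := kb h
  linear_combination (th + (P 1 : R) * P 4 - (P 0 : R) * P 5) * e1 - Gm P th * e2 +
    (Nf P : R) * b1 P th * e3

theorem g22 (h : Hy P th) (hK : (Kf P : R) ≠ 0) : (Nf P : R) * (b2 P th * b2 P th) =
    Gm P th * ((P 11 : R) * (Nf P : R) - (P 8 : R) * tc P th) := by
  apply mul_left_cancel₀ hK
  have e1 := g12 h hK
  have e2 := c22 h
  have e3 := kb h
  linear_combination (th + (P 1 : R) * P 4 - (P 0 : R) * P 5) * e1 - Gm P th * e2 +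
    (Nf P : R) * b2 P th * e3

end ring

end Pool.Agent.LBQ
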